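import Pool.Agent.Q276.KZ.Stm
import Pool.Agent.Q251.CD.FN
import Pool.Agent.Q178.CD.Sh

set_option autoImplicit false

/-! Project KZ (helper276), lemma job HT: from the line `1/2 + Δ` to the critical line. -/

namespace Pool.Agent.Q102.KZ

open MeasureTheory Filter Topology Pool.Agent.Q276.KZ Pool.Agent.Q276.CD Pool.Agent.W184 Pool.Agent.Q178.CD

/-- averaging the Poisson integral over the shrunken interval -/
lemma shrink {g : ℝ → ℝ} (hg : Continuous g) (hg0 : ∀ u, 0 ≤ g u) {M : ℝ} (hgM : ∀ u, g u ≤ M)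
    {K T H Δ : ℝ} (hH : 0 < H) (hHT : 2 * H ≤ T) (hΔ : 0 < Δ) (hΔ1 : Δ ≤ 1)
    (hG : ∀ t ∈ Set.Icc (T + H) (2 * T - H), ∀ R : ℝ, H ≤ R → ∫ u in (t - R)..(t + R), g u ≤ K * R)
    (h : ℝ → ℝ) (hh : Continuous h) (hle : ∀ t, h t ≤ ∫ w : ℝ, KP Δ w * g (t + w)) :
    ∫ t in (T + H)..(2 * T - H), h t ≤ (∫ u in T..(2 * T), g u) + (T - 2 * H) * (4 * K / (Real.pi * H)) := by
  have hKc := KP_cont hΔ
  have hab : T + H ≤ 2 * T - H := by linarith
  set J := ∫ u in T..(2 * T), g u with hJ
  have hc : Continuous (Function.uncurry fun (t w : ℝ) => KP Δ w * g (t + w)) := by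
    have h1 : Continuous (fun p : ℝ × ℝ => KP Δ p.2 * g (p.1 + p.2)) :=
      (hKc.comp continuous_snd).mul (hg.comp (continuous_fst.add continuous_snd))
    exact h1
  have hc' : Continuous (Function.uncurry fun (w t : ℝ) => KP Δ w * g (t + w)) := hc.comp continuous_swap
  have h1 : ∫ t in (T + H)..(2 * T - H), h t ≤ ∫ t in (T + H)..(2 * T - H),
      ((∫ w in (-H)..H, KP Δ w * g (t + w)) + 4 * K / (Real.pi * H)) := by
    refine intervalIntegral.integral_mono_on hab (hh.intervalIntegrable _ _) ?_ ?_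
    · apply Continuous.intervalIntegrable
      exact (intervalIntegral.continuous_parametric_intervalIntegral_of_continuous' hc _ _).add continuous_const
    · intro t ht
      exact (hle t).trans (tail_bound hg hg0 hgM hH hΔ hΔ1 (hG t ht))
  have h2 : ∫ t in (T + H)..(2 * T - H), ((∫ w in (-H)..H, KP Δ w * g (t + w)) + 4 * K / (Real.pi * H)) =
      (∫ t in (T + H)..(2 * T - H), ∫ w in (-H)..H, KP Δ w * g (t + w)) +
        (T - 2 * H) * (4 * K / (Real.pi * H)) := by
    rw [intervalIntegral.integral_add, intervalIntegral.integral_const, smul_eq_mul]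
    · ring
    · apply Continuous.intervalIntegrable
      exact intervalIntegral.continuous_parametric_intervalIntegral_of_continuous' hc _ _
    · simp
  have h3 : ∫ t in (T + H)..(2 * T - H), ∫ w in (-H)..H, KP Δ w * g (t + w) =
      ∫ w in (-H)..H, ∫ t in (T + H)..(2 * T - H), KP Δ w * g (t + w) := by
    apply intervalIntegral_intervalIntegral_swap
    have hcpt : IsCompact (Set.uIcc (T + H) (2 * T - H) ×ˢ Set.uIcc (-H) H) :=
      isCompact_uIcc.prod isCompact_uIcc
    exact (hc.continuousOn.integrableOn_compact hcpt).mono_set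
      (Set.prod_mono Set.uIoc_subset_uIcc Set.uIoc_subset_uIcc)
  have h4 : ∫ w in (-H)..H, ∫ t in (T + H)..(2 * T - H), KP Δ w * g (t + w) ≤
      ∫ w in (-H)..H, KP Δ w * J := by
    refine intervalIntegral.integral_mono_on (by linarith) ?_ ?_ ?_
    · apply Continuous.intervalIntegrable
      exact intervalIntegral.continuous_parametric_intervalIntegral_of_continuous' hc' _ _
    · apply Continuous.intervalIntegrable
      exact hKc.mul continuous_const
    · intro w hw
      rw [intervalIntegral.integral_const_mul]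
      refine mul_le_mul_of_nonneg_left ?_ (KP_nonneg hΔ w)
      rw [intervalIntegral.integral_comp_add_right (fun u => g u)]
      rw [hJ]
      refine intervalIntegral.integral_mono_interval (by linarith [hw.1]) (by linarith) (by linarith [hw.2])
        (Eventually.of_forall fun u => hg0 u) (hg.intervalIntegrable _ _)
  have h5 : ∫ w in (-H)..H, KP Δ w * J ≤ J := by
    rw [intervalIntegral.integral_mul_const]
    have hJ0 : 0 ≤ J := intervalIntegral.integral_nonneg (by linarith) fun u _ => hg0 u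
    have h6 : ∫ w in (-H)..H, KP Δ w ≤ 1 := by
      rw [intervalIntegral.integral_of_le (by linarith), ← (KP_int hΔ).2]
      exact setIntegral_le_integral (KP_int hΔ).1 (Eventually.of_forall fun w => KP_nonneg hΔ w)
    nlinarith
  rw [h2, h3] at h1
  linarith

theorem t_HT (hHP : P_HP) : P_HT := by
  have hev := Pool.Agent.Q251.CD.ev_log (c := 1) (e := 1 / 8) one_pos (by norm_num)
  filter_upwards [hev, eventually_ge_atTop ((8:ℝ) ^ 8)] with T hlog hT8 k Δ hk0 hk1 hΔ hΔ1
  have hT0 : (0:ℝ) < T := by linarith [show (0:ℝ) < 8 ^ 8 by norm_num]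
  have hT1 : (1:ℝ) ≤ T := by linarith [show (1:ℝ) ≤ 8 ^ 8 by norm_num]
  set x : ℝ := T ^ ((1:ℝ) / 8) with hx
  have hx8 : x ^ 8 = T := by
    rw [hx, ← Real.rpow_natCast, ← Real.rpow_mul hT0.le]; norm_num
  have hx7 : T ^ ((7:ℝ) / 8) = x ^ 7 := by
    rw [hx, ← Real.rpow_natCast, ← Real.rpow_mul hT0.le]; norm_num
  have hx0 : 0 < x := Real.rpow_pos_of_pos hT0 _
  have hxge : 8 ≤ x := by
    by_contra hcon
    push Not at hcon
    have := pow_lt_pow_left₀ hcon hx0.le (n := 8) (by norm_num)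
    rw [hx8] at this
    linarith
  have hx6 : x ^ 6 ≤ T ^ ((4:ℝ) / 5) := by
    have : x ^ 6 = T ^ ((6:ℝ) / 8) := by
      rw [hx, ← Real.rpow_natCast, ← Real.rpow_mul hT0.le]; norm_num
    rw [this]
    exact Real.rpow_le_rpow_of_exponent_le hT1 (by norm_num)
  rw [hx7]
  rw [one_mul] at hlog
  have hNN : 1 ≤ NN T := by
    unfold NN
    exact Nat.one_le_iff_ne_zero.mpr (by
      intro h0
      have := Nat.ceil_eq_zero.mp h0
      linarith)
  have hNNle : (NN T : ℝ) ≤ 9 * T := by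
    have : (NN T : ℝ) < 8 * T + 1 := by
      unfold NN
      exact Nat.ceil_lt_add_one (by positivity)
    linarith
  have hlogN : 1 + Real.log (NN T) ≤ 5 * x := by
    have h1 : Real.log (NN T) ≤ Real.log (9 * T) :=
      Real.log_le_log (by exact_mod_cast hNN) hNNle
    have h2 : Real.log (9 * T) = Real.log 9 + Real.log T := Real.log_mul (by norm_num) hT0.ne'
    have h3 : Real.log 9 ≤ 8 := by
      have := Real.log_le_sub_one_of_pos (show (0:ℝ) < 9 by norm_num)
      linarith
    linarith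
  have hlogN0 : 0 ≤ 1 + Real.log (NN T) := by
    have := Real.log_natCast_nonneg (NN T)
    linarith
  set g : ℝ → ℝ := fun u => ‖ZZ T (cl u)‖ ^ (2 * k) with hg
  have hZc : Continuous fun t : ℝ => ZZ T (cl t) := Pool.Agent.Q251.CD.Dp_cont _ _
  have hgc : Continuous g := by
    simp only [hg]
    exact hZc.norm.rpow_const fun _ => Or.inr (by linarith)
  have hg0 : ∀ u, 0 ≤ g u := fun u => Real.rpow_nonneg (norm_nonneg _) _
  have hgle : ∀ u, g u ≤ 1 + ‖ZZ T (cl u)‖ ^ 2 := by
    intro u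
    simp only [hg]
    set y := ‖ZZ T (cl u)‖ with hy
    have hy0 : 0 ≤ y := norm_nonneg _
    rcases le_total y 1 with h1 | h1
    · have := Real.rpow_le_one hy0 h1 (by linarith : 0 ≤ 2 * k)
      nlinarith [sq_nonneg y]
    · have : y ^ (2 * k) ≤ y ^ (2:ℝ) := Real.rpow_le_rpow_of_exponent_le h1 (by linarith)
      rw [Real.rpow_two] at this
      linarith
  obtain ⟨M, hM⟩ : ∃ M : ℝ, ∀ u, ‖ZZ T (cl u)‖ ≤ M :=
    ⟨_, fun u => Dp_bound _ _ u⟩
  have hgM : ∀ u, g u ≤ 1 + M ^ 2 := by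
    intro u
    refine (hgle u).trans ?_
    have := pow_le_pow_left₀ (norm_nonneg _) (hM u) 2
    linarith
  have hG : ∀ t ∈ Set.Icc (T + x ^ 7) (2 * T - x ^ 7), ∀ R : ℝ, x ^ 7 ≤ R →
      ∫ u in (t - R)..(t + R), g u ≤ (282 * x ^ 2) * R := by
    intro t _ R hR
    have hR0 : 0 < R := lt_of_lt_of_le (by positivity) hR
    have h1 : ∫ u in (t - R)..(t + R), g u ≤ ∫ u in (t - R)..(t + R), (1 + ‖ZZ T (cl u)‖ ^ 2) := by
      refine intervalIntegral.integral_mono_on (by linarith) (hgc.intervalIntegrable _ _) ?_ fun u _ => hgle u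
      exact (continuous_const.add (hZc.norm.pow 2)).intervalIntegrable _ _
    have h2 : ∫ u in (t - R)..(t + R), (1 + ‖ZZ T (cl u)‖ ^ 2) = 2 * R +
        ∫ u in (t - R)..(t + R), ‖ZZ T (cl u)‖ ^ 2 := by
      have hc2 : Continuous fun u : ℝ => ‖ZZ T (cl u)‖ ^ 2 := hZc.norm.pow 2
      rw [intervalIntegral.integral_add (continuous_const.intervalIntegrable _ _) (hc2.intervalIntegrable _ _),
        intervalIntegral.integral_const, smul_eq_mul]
      ring
    have h3 := Pool.Agent.Q251.CD.ZZ_int T (t - R) (t + R) (by linarith) hNN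
    have h4 : t + R - (t - R) + 6 * NN T ≤ (2 + 54 * x) * R := by
      have : T ≤ x * R := by
        rw [← hx8]
        calc x ^ 8 = x * x ^ 7 := by ring
          _ ≤ x * R := by gcongr
      nlinarith
    have h5 : (t + R - (t - R) + 6 * NN T) * (1 + Real.log (NN T)) ≤ ((2 + 54 * x) * R) * (5 * x) := by
      apply mul_le_mul h4 hlogN hlogN0 (by positivity)
    have h6 : 2 * R + ((2 + 54 * x) * R) * (5 * x) ≤ 282 * x ^ 2 * R := by
      have : 2 + (2 + 54 * x) * (5 * x) ≤ 282 * x ^ 2 := by nlinarith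
      nlinarith
    linarith
  set h : ℝ → ℝ := fun t => ‖ZZ T (cl t + (Δ : ℂ))‖ ^ (2 * k) with hh
  have hhc : Continuous h := by
    simp only [hh]
    have h1 : Continuous fun t : ℝ => ZZ T (cl t + (Δ : ℂ)) := by
      have h2 : Continuous (ZZ T) := (Dp_diff _ _).continuous
      refine h2.comp ?_
      unfold cl
      fun_prop
    exact h1.norm.rpow_const fun _ => Or.inr (by linarith)
  have hle : ∀ t, h t ≤ ∫ w : ℝ, KP Δ w * g (t + w) := by
    intro t
    have h1 := hHP (fun _ => 1) (NN T) (2 * k) Δ t (by linarith) hΔ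
    have h2 : Δ / Real.pi * ∫ u : ℝ, ‖Dp (fun _ => 1) (NN T) (cl u)‖ ^ (2 * k) / (Δ ^ 2 + (t - u) ^ 2) =
        ∫ w : ℝ, KP Δ w * g (t + w) := by
      rw [← integral_const_mul]
      rw [← integral_add_left_eq_self (fun u : ℝ => Δ / Real.pi * (‖Dp (fun _ => 1) (NN T) (cl u)‖ ^ (2 * k) / (Δ ^ 2 + (t - u) ^ 2))) t]
      refine integral_congr_ae (Eventually.of_forall fun w => ?_)
      simp only [hg, KP, ZZ]
      rw [show t - (t + w) = -w by ring, neg_sq, add_comm (Δ ^ 2) (w ^ 2)]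
      ring
    rw [← h2]
    exact h1
  have hH0 : 0 < x ^ 7 := by positivity
  have hfin := shrink (T := T) (H := x ^ 7) hgc hg0 hgM (K := 282 * x ^ 2) hH0 (by
    rw [← hx8]
    have : x ^ 8 = x * x ^ 7 := by ring
    nlinarith) hΔ hΔ1 hG h hhc hle
  refine hfin.trans ?_
  have hK : (T - 2 * x ^ 7) * (4 * (282 * x ^ 2) / (Real.pi * x ^ 7)) ≤ T ^ ((4:ℝ) / 5) := by
    have hpi3 := Real.pi_gt_three
    have e1 : 4 * (282 * x ^ 2) / (Real.pi * x ^ 7) ≤ 4 * (282 * x ^ 2) / (3 * x ^ 7) := by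
      gcongr
    have e2 : T - 2 * x ^ 7 ≤ T := by linarith
    have e3 : (T - 2 * x ^ 7) * (4 * (282 * x ^ 2) / (Real.pi * x ^ 7)) ≤ T * (4 * (282 * x ^ 2) / (3 * x ^ 7)) := by
      apply mul_le_mul e2 e1 (by positivity) hT0.le
    refine e3.trans (le_trans ?_ hx6)
    have e4 : T * (4 * (282 * x ^ 2) / (3 * x ^ 7)) = 376 * x ^ 3 := by
      rw [← hx8]
      field_simp
      ring
    rw [e4]
    have e5 : (8:ℝ) ^ 3 ≤ x ^ 3 := pow_le_pow_left₀ (by norm_num) hxge 3
    have e6 : x ^ 6 = x ^ 3 * x ^ 3 := by ring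
    rw [e6]
    have e7 : 0 < x ^ 3 := by positivity
    nlinarith
  linarith

end Pool.Agent.Q102.KZ
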