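import Pool.Agent.Q18.KZ.S3

/-!
# Project KZ (helper18), job LB: Lipschitz bounds
-/

set_option autoImplicit false

namespace Pool.Agent.Q102.KZ

open Finset Filter Topology
open scoped Classical
open Pool.Agent.W76.MO (hh nc cell lp Rough)
open Q236.CM (LP LP_one LP_mul LP_prime LP_nonneg LP_le)
open Pool.Agent.Q18.KZ

/-- the basic inequalities for products over the prime factors, in one induction -/
theorem LB_core (c g y y' : ℕ → ℝ) (ε : ℝ) (hε : 0 ≤ ε) (hc : ∀ p, 0 ≤ c p) (hg : ∀ p, 0 ≤ g p)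
    (hy : ∀ p, |y p| ≤ c p + g p) (hy' : ∀ p, |y' p| ≤ c p + g p) (hd : ∀ p, |y p - y' p| ≤ ε * g p)
    {n : ℕ} (hn : n ≠ 0) :
    0 ≤ LP c n ∧ LP c n ≤ LP (fun p => c p + 2 * g p) n ∧ 0 ≤ LP (fun p => c p + g p) n ∧
    LP (fun p => c p + g p) n ≤ LP (fun p => c p + 2 * g p) n ∧
    2 * LP (fun p => c p + g p) n ≤ LP (fun p => c p + 2 * g p) n + LP c n ∧
    |LP y n| ≤ LP (fun p => c p + g p) n ∧ |LP y' n| ≤ LP (fun p => c p + g p) n ∧
    |LP y n - LP y' n| ≤ ε * ((LP (fun p => c p + 2 * g p) n - LP c n) / 2) := by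
  induction n using induction_on_primes with
  | zero => exact absurd rfl hn
  | one => simp [LP_one]; norm_num
  | prime_mul p a hp ih =>
    have ha : a ≠ 0 := by rintro rfl; simp at hn
    obtain ⟨i1, i2, i3, i4, i5, i6, i7, i8⟩ := ih ha
    simp only [LP_mul _ hp.ne_zero ha, LP_prime _ hp]
    set C := LP c a with hC
    set B := LP (fun p => c p + g p) a with hB
    set A := LP (fun p => c p + 2 * g p) a with hA
    set Y := LP y a with hY
    set Y' := LP y' a with hY'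
    have c0 := hc p
    have g0 := hg p
    have y0 := hy p
    have y0' := hy' p
    have d0 := hd p
    refine ⟨by positivity, ?_, by positivity, ?_, ?_, ?_, ?_, ?_⟩
    · nlinarith
    · nlinarith
    · nlinarith
    · rw [abs_mul]
      exact mul_le_mul y0 i6 (abs_nonneg _) (by linarith)
    · rw [abs_mul]
      exact mul_le_mul y0' i7 (abs_nonneg _) (by linarith)
    · have e1 : y p * Y - y' p * Y' = (y p - y' p) * Y + y' p * (Y - Y') := by ring
      rw [e1]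
      have h1 : |(y p - y' p) * Y| ≤ (ε * g p) * B := by
        rw [abs_mul]
        exact mul_le_mul d0 i6 (abs_nonneg _) (by positivity)
      have h2 : |y' p * (Y - Y')| ≤ (c p + g p) * (ε * ((A - C) / 2)) := by
        rw [abs_mul]
        exact mul_le_mul y0' i8 (abs_nonneg _) (by linarith)
      have h3 := abs_add_le ((y p - y' p) * Y) (y' p * (Y - Y'))
      have h4 : 0 ≤ ε * (g p * (A + C - 2 * B)) := by
        apply mul_nonneg hε
        apply mul_nonneg g0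
        linarith
      nlinarith

variable (E : KEnv) (V : ℕ → Bool)

theorem ww_nn (δ : ℝ) (i : ℕ) : 0 ≤ ww δ i := by
  unfold ww
  positivity

theorem al_pos : 0 < E.al := by
  unfold KEnv.al
  positivity

theorem Om1_nn (i k : ℕ) : 0 ≤ E.Om1 V i k := by
  unfold KEnv.Om1
  exact sum_nonneg fun v _ => Real.rpow_nonneg (Nat.cast_nonneg v) _

theorem Om2_nn (i k : ℕ) : 0 ≤ E.Om2 V i k := by
  unfold KEnv.Om2
  exact sum_nonneg fun v _ => Real.rpow_nonneg (Nat.cast_nonneg _) _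

theorem aV_nn (p : ℕ) : 0 ≤ aV V p := by
  unfold aV
  split_ifs
  · exact Real.rpow_nonneg (Nat.cast_nonneg p) _
  · exact le_rfl

theorem gu_nn (j p : ℕ) : 0 ≤ E.gu j p := by
  unfold KEnv.gu
  split_ifs
  · exact div_nonneg (ww_nn _ _) (Nat.cast_nonneg _)
  · exact le_rfl

theorem G1a_nn (i k q : ℕ) : 0 ≤ E.G1a V i k q := by
  unfold KEnv.G1a
  apply mul_nonneg (mul_nonneg (al_pos E).le (ww_nn _ _))
  apply sum_nonneg
  intro v _
  apply mul_nonneg (div_nonneg (Real.rpow_nonneg (Nat.cast_nonneg v) _) (Om1_nn E V i k))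
  apply add_nonneg
  · split_ifs <;> positivity
  · split_ifs <;> positivity

theorem G1_abs (i k q : ℕ) : |E.G1 V i k q| ≤ E.G1a V i k q := by
  unfold KEnv.G1 KEnv.G1a
  rw [abs_mul, abs_of_nonneg (mul_nonneg (al_pos E).le (ww_nn _ _))]
  apply mul_le_mul_of_nonneg_left _ (mul_nonneg (al_pos E).le (ww_nn _ _))
  refine (abs_sum_le_sum_abs _ _).trans (sum_le_sum fun v _ => ?_)
  rw [abs_mul, abs_of_nonneg (div_nonneg (Real.rpow_nonneg (Nat.cast_nonneg v) _) (Om1_nn E V i k))]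
  apply mul_le_mul_of_nonneg_left _ (div_nonneg (Real.rpow_nonneg (Nat.cast_nonneg v) _) (Om1_nn E V i k))
  refine (abs_sub _ _).trans ?_
  apply add_le_add
  · rw [abs_of_nonneg]
    split_ifs <;> positivity
  · rw [abs_of_nonneg]
    split_ifs <;> positivity

theorem G2_nn (i k q : ℕ) : 0 ≤ E.G2 V i k q := by
  unfold KEnv.G2
  apply mul_nonneg (mul_nonneg (al_pos E).le (ww_nn _ _))
  apply sum_nonneg
  intro v _
  exact div_nonneg (Real.rpow_nonneg (Nat.cast_nonneg _) _) (Om2_nn E V i k)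

theorem H1_nn (i q : ℕ) : 0 ≤ E.H1 V i q := sum_nonneg fun k _ => G1a_nn E V i k q

theorem H2_nn (i q : ℕ) : 0 ≤ E.H2 V i q := sum_nonneg fun k _ => G2_nn E V i k q

theorem gh_nn (j q : ℕ) : 0 ≤ E.gh V j q :=
  sum_nonneg fun i _ => add_nonneg (H1_nn E V i q) (H2_nn E V i q)

theorem ghn_nn (j I q : ℕ) : 0 ≤ E.ghn V j I q := by
  apply sum_nonneg
  intro i _
  apply add_nonneg _ (H2_nn E V i q)
  split_ifs
  · exact H1_nn E V i q
  · exact le_rfl

theorem ghn_le (j I q : ℕ) : E.ghn V j I q ≤ E.gh V j q := by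
  apply sum_le_sum
  intro i _
  apply add_le_add_left
  split_ifs
  · exact le_rfl
  · exact H1_nn E V i q

theorem lin1 (i q : ℕ) (z : ℕ × ℕ → ℝ) (ε : ℝ) (hz : ∀ x, |z x| ≤ ε) :
    |∑ k ∈ E.B1 i, z (i, k) * E.G1 V i k q| ≤ ε * E.H1 V i q := by
  unfold KEnv.H1
  rw [mul_sum]
  refine (abs_sum_le_sum_abs _ _).trans (sum_le_sum fun k _ => ?_)
  rw [abs_mul]
  exact mul_le_mul (hz _) (G1_abs E V i k q) (abs_nonneg _) ((abs_nonneg _).trans (hz (0, 0)))

theorem lin2 (i q : ℕ) (z : ℕ × ℕ → ℝ) (ε : ℝ) (hz : ∀ x, |z x| ≤ ε) :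
    |∑ k ∈ E.B2 i, z (i, k) * E.G2 V i k q| ≤ ε * E.H2 V i q := by
  unfold KEnv.H2
  rw [mul_sum]
  refine (abs_sum_le_sum_abs _ _).trans (sum_le_sum fun k _ => ?_)
  rw [abs_mul, abs_of_nonneg (G2_nn E V i k q)]
  exact mul_le_mul_of_nonneg_right (hz _) (G2_nn E V i k q)

/-- the part of `fp` that is linear in `z` -/
theorem linp (j p : ℕ) (z : ℕ × ℕ → ℝ) (ε : ℝ) (hz : ∀ x, |z x| ≤ ε) :
    |z (KEnv.sc p, E.kx p) * E.gu j p +
      ∑ i ∈ KEnv.hs j p, (∑ k ∈ E.B1 i, z (i, k) * E.G1 V i k p + ∑ k ∈ E.B2 i, z (i, k) * E.G2 V i k p)| ≤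
      ε * (E.gu j p + E.gh V j p) := by
  refine (abs_add_le _ _).trans ?_
  rw [mul_add]
  apply add_le_add
  · rw [abs_mul, abs_of_nonneg (gu_nn E j p)]
    exact mul_le_mul_of_nonneg_right (hz _) (gu_nn E j p)
  · unfold KEnv.gh
    rw [mul_sum]
    refine (abs_sum_le_sum_abs _ _).trans (sum_le_sum fun i _ => ?_)
    refine (abs_add_le _ _).trans ?_
    rw [mul_add]
    exact add_le_add (lin1 E V i p z ε hz) (lin2 E V i p z ε hz)

theorem linn (j I p : ℕ) (z : ℕ × ℕ → ℝ) (ε : ℝ) (hz : ∀ x, |z x| ≤ ε) :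
    |z (KEnv.sc p, E.kx p) * E.gu j p +
      ∑ i ∈ KEnv.hs j p, ((if (i : ℝ) ≤ 1.166 * I then ∑ k ∈ E.B1 i, z (i, k) * E.G1 V i k p else 0) +
        ∑ k ∈ E.B2 i, z (i, k) * E.G2 V i k p)| ≤
      ε * (E.gu j p + E.ghn V j I p) := by
  refine (abs_add_le _ _).trans ?_
  rw [mul_add]
  apply add_le_add
  · rw [abs_mul, abs_of_nonneg (gu_nn E j p)]
    exact mul_le_mul_of_nonneg_right (hz _) (gu_nn E j p)
  · unfold KEnv.ghn
    rw [mul_sum]
    refine (abs_sum_le_sum_abs _ _).trans (sum_le_sum fun i _ => ?_)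
    refine (abs_add_le _ _).trans ?_
    rw [mul_add]
    apply add_le_add _ (lin2 E V i p z ε hz)
    split_ifs
    · exact lin1 E V i p z ε hz
    · simp

theorem lin_sub (j p : ℕ) (z z' : ℕ × ℕ → ℝ) : E.fp V j z p - E.fp V j z' p =
    (z - z') (KEnv.sc p, E.kx p) * E.gu j p +
      ∑ i ∈ KEnv.hs j p, (∑ k ∈ E.B1 i, (z - z') (i, k) * E.G1 V i k p +
        ∑ k ∈ E.B2 i, (z - z') (i, k) * E.G2 V i k p) := by
  unfold KEnv.fp
  have h1 : ∀ i, (∑ k ∈ E.B1 i, (z - z') (i, k) * E.G1 V i k p + ∑ k ∈ E.B2 i, (z - z') (i, k) * E.G2 V i k p) =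
      (∑ k ∈ E.B1 i, z (i, k) * E.G1 V i k p + ∑ k ∈ E.B2 i, z (i, k) * E.G2 V i k p) -
      (∑ k ∈ E.B1 i, z' (i, k) * E.G1 V i k p + ∑ k ∈ E.B2 i, z' (i, k) * E.G2 V i k p) := by
    intro i
    simp only [Pi.sub_apply, sub_mul, sum_sub_distrib]
    ring
  rw [sum_congr rfl fun i _ => h1 i, sum_sub_distrib]
  simp only [Pi.sub_apply]
  ring

theorem linn_sub (j I p : ℕ) (z z' : ℕ × ℕ → ℝ) : E.fn V j I z p - E.fn V j I z' p =
    (z - z') (KEnv.sc p, E.kx p) * E.gu j p +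
      ∑ i ∈ KEnv.hs j p, ((if (i : ℝ) ≤ 1.166 * I then ∑ k ∈ E.B1 i, (z - z') (i, k) * E.G1 V i k p else 0) +
        ∑ k ∈ E.B2 i, (z - z') (i, k) * E.G2 V i k p) := by
  unfold KEnv.fn
  have h1 : ∀ i : ℕ, ((if (i : ℝ) ≤ 1.166 * I then ∑ k ∈ E.B1 i, (z - z') (i, k) * E.G1 V i k p else 0) +
        ∑ k ∈ E.B2 i, (z - z') (i, k) * E.G2 V i k p) =
      ((if (i : ℝ) ≤ 1.166 * I then ∑ k ∈ E.B1 i, z (i, k) * E.G1 V i k p else 0) +
        ∑ k ∈ E.B2 i, z (i, k) * E.G2 V i k p) -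
      ((if (i : ℝ) ≤ 1.166 * I then ∑ k ∈ E.B1 i, z' (i, k) * E.G1 V i k p else 0) +
        ∑ k ∈ E.B2 i, z' (i, k) * E.G2 V i k p) := by
    intro i
    split_ifs <;> simp only [Pi.sub_apply, sub_mul, sum_sub_distrib] <;> ring
  rw [sum_congr rfl fun i _ => h1 i, sum_sub_distrib]
  simp only [Pi.sub_apply]
  ring

theorem fp_abs (j p : ℕ) (z : ℕ × ℕ → ℝ) (hz : ∀ x, |z x| ≤ 1) :
    |E.fp V j z p| ≤ aV V p + (E.gu j p + E.gh V j p) := by
  have h := linp E V j p z 1 hz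
  unfold KEnv.fp
  rw [add_assoc]
  refine (abs_add_le _ _).trans ?_
  rw [abs_of_nonneg (aV_nn V p)]
  linarith

theorem fn_abs (j I p : ℕ) (z : ℕ × ℕ → ℝ) (hz : ∀ x, |z x| ≤ 1) :
    |E.fn V j I z p| ≤ aV V p + (E.gu j p + E.ghn V j I p) := by
  have h := linn E V j I p z 1 hz
  unfold KEnv.fn
  rw [add_assoc]
  refine (abs_add_le _ _).trans ?_
  rw [abs_of_nonneg (aV_nn V p)]
  linarith

/-- job LB, without any hypothesis on `V` -/
theorem LB_all (j : ℕ) (z z' : ℕ × ℕ → ℝ) (ε : ℝ) (hz : ∀ x, |z x| ≤ 1) (hz' : ∀ x, |z' x| ≤ 1)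
    (hzz : ∀ x, |z x - z' x| ≤ ε) {n : ℕ} (hn : n ≠ 0) :
    |E.ff V j z n| ≤ E.AA V j n ∧ |E.ff V j z n - E.ff V j z' n| ≤ ε * E.AA V j n ∧
    ∀ I : ℕ, |LP (E.fn V j I z) n| ≤ E.AN V j I n ∧ E.AN V j I n ≤ E.AA V j n ∧
      |LP (E.fn V j I z) n - LP (E.fn V j I z') n| ≤ ε * ((E.AN V j I n - LP (aV V) n) / 2) := by
  have hε : 0 ≤ ε := (abs_nonneg _).trans (hzz (0, 0))
  have hzs : ∀ x, |(z - z') x| ≤ ε := hzz
  obtain ⟨a1, a2, a3, a4, a5, a6, a7, a8⟩ := LB_core (aV V) (fun p => E.gu j p + E.gh V j p)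
    (E.fp V j z) (E.fp V j z') ε hε (aV_nn V) (fun p => add_nonneg (gu_nn E j p) (gh_nn E V j p))
    (fun p => fp_abs E V j p z hz) (fun p => fp_abs E V j p z' hz')
    (fun p => by rw [lin_sub]; exact linp E V j p _ ε hzs) hn
  refine ⟨?_, ?_, fun I => ?_⟩
  · exact a6.trans a4
  · refine a8.trans ?_
    apply mul_le_mul_of_nonneg_left _ hε
    show _ ≤ LP (fun p => aV V p + 2 * (E.gu j p + E.gh V j p)) n
    have := a1.trans a2
    linarith
  · obtain ⟨b1, b2, b3, b4, b5, b6, b7, b8⟩ := LB_core (aV V) (fun p => E.gu j p + E.ghn V j I p)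
      (E.fn V j I z) (E.fn V j I z') ε hε (aV_nn V) (fun p => add_nonneg (gu_nn E j p) (ghn_nn E V j I p))
      (fun p => fn_abs E V j I p z hz) (fun p => fn_abs E V j I p z' hz')
      (fun p => by rw [linn_sub]; exact linn E V j I p _ ε hzs) hn
    refine ⟨b6.trans b4, ?_, b8⟩
    unfold KEnv.AN KEnv.AA
    apply LP_le _ _ _ hn
    · intro p _ _
      have := ghn_le E V j I p
      linarith
    · intro p
      have h1 := aV_nn V p
      have h2 := gu_nn E j p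
      have h3 := ghn_nn E V j I p
      linarith

/-- **job LB** -/
theorem t_LB : S_LB := by
  intro E
  exact ⟨1, 0, one_pos, fun η j V _ _ _ _ z z' ε hz hz' hzz n hn =>
    LB_all E V j z z' ε hz hz' hzz hn⟩

end Pool.Agent.Q102.KZ
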