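import Pool.Agent.Q102.KZ.LB

/-!
# Project KZ (helper18), job NK: the key inequality
-/

set_option autoImplicit false

namespace Pool.Agent.Q102.KZ

open Finset Filter Topology
open scoped Classical
open Pool.Agent.W76.MO (hh nc cell lp Rough cell_loc)
open Q236.CM (LP LP_one LP_mul LP_prime LP_nonneg LP_le)
open Pool.Agent.Q18.KZ

theorem ww_pos (δ : ℝ) {i : ℕ} (hi : 1 ≤ i) : 0 < ww δ i := by
  unfold ww
  have : (0 : ℝ) < i := by exact_mod_cast hi
  positivity

theorem al_le (E : KEnv) : E.al ≤ 1 / 64 := by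
  unfold KEnv.al
  have : (0 : ℝ) ≤ E.B0 := Nat.cast_nonneg _
  apply div_le_div_of_nonneg_left (by norm_num) (by norm_num)
  linarith

theorem fac_one {i n p : ℕ} (hi : 6 ≤ i) (hn : n ≠ 0) (hle : n ≤ 2 ^ (i + 1)) (hp : p.Prime)
    (hpn : p ∣ n) (hb : (2 : ℝ) ^ (3 / 5 * (i : ℝ)) < p) : n.factorization p = 1 := by
  by_contra hne
  have h1 : 1 ≤ n.factorization p := (hp.dvd_iff_one_le_factorization hn).1 hpn
  have h2 : 2 ≤ n.factorization p := by omega
  have h3 : p ^ 2 ∣ n := (hp.pow_dvd_iff_le_factorization hn).2 h2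
  have h4 : p ^ 2 ≤ 2 ^ (i + 1) := (Nat.le_of_dvd (Nat.pos_of_ne_zero hn) h3).trans hle
  have h5 : ((p : ℝ)) ^ 2 ≤ (2 : ℝ) ^ (i + 1) := by exact_mod_cast h4
  have h6 : ((2 : ℝ) ^ (3 / 5 * (i : ℝ))) ^ 2 < (p : ℝ) ^ 2 :=
    pow_lt_pow_left₀ hb (by positivity) two_ne_zero
  have h7 : ((2 : ℝ) ^ (3 / 5 * (i : ℝ))) ^ 2 = (2 : ℝ) ^ (6 / 5 * (i : ℝ)) := by
    rw [← Real.rpow_natCast, ← Real.rpow_mul (by norm_num)]
    congr 1
    push_cast
    ring
  have h8 : (2 : ℝ) ^ (i + 1) = (2 : ℝ) ^ ((i : ℝ) + 1) := by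
    rw [← Real.rpow_natCast]
    push_cast
    rfl
  have h9 : (2 : ℝ) ^ ((i : ℝ) + 1) ≤ (2 : ℝ) ^ (6 / 5 * (i : ℝ)) := by
    apply Real.rpow_le_rpow_of_exponent_le (by norm_num)
    have : (6 : ℝ) ≤ i := by exact_mod_cast hi
    linarith
  rw [h7] at h6
  rw [h8] at h5
  linarith

/-- the pointwise inequality behind NK -/
theorem NK_point (hSPL : S_SPL) (E : KEnv) (V : ℕ → Bool) (j i : ℕ) {n : ℕ} (hi : 6 ≤ i) (hn : n ≠ 0)
    (hle : n ≤ 2 ^ (i + 1)) :
    (E.AN V j i n - LP (aV V) n) / 2 ≤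
      LP (fun p => aV V p + 2 * (gus E j i p + ghs E V j i p)) n +
      ∑ p ∈ n.primeFactors.filter (fun p : ℕ => (2 : ℝ) ^ (3 / 5 * (i : ℝ)) < p), E.gu j p * E.AA V j (n / p) +
      ∑ q ∈ n.primeFactors.filter (fun q : ℕ => (2 : ℝ) ^ ((i : ℝ) / 10 ^ 6) ≤ q),
        (n.factorization q : ℝ) * (E.ghn V j i q * E.AA V j (n / q)) := by
  set s : ℕ → ℝ := fun p => aV V p + 2 * (gus E j i p + ghs E V j i p) with hs
  set b : ℕ → ℝ := fun p => 2 * ((if (2 : ℝ) ^ (3 / 5 * (i : ℝ)) < p then E.gu j p else 0) +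
    (if (2 : ℝ) ^ ((i : ℝ) / 10 ^ 6) ≤ p then E.ghn V j i p else 0)) with hb
  have gusn : ∀ p, 0 ≤ gus E j i p := by
    intro p
    unfold gus
    split_ifs
    · exact gu_nn E j p
    · exact le_rfl
  have ghsn : ∀ p, 0 ≤ ghs E V j i p := by
    intro p
    unfold ghs
    split_ifs
    · exact gh_nn E V j p
    · exact le_rfl
  have hs0 : ∀ p, 0 ≤ s p := by
    intro p
    have h1 := aV_nn V p
    have h2 := gusn p
    have h3 := ghsn p
    simp only [hs]
    linarith
  have hb0 : ∀ p, 0 ≤ b p := by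
    intro p
    have h1 := gu_nn E j p
    have h2 := ghn_nn E V j i p
    simp only [hb]
    split_ifs <;> linarith
  have h1 : E.AN V j i n ≤ LP (fun p => s p + b p) n := by
    unfold KEnv.AN
    apply LP_le _ _ _ hn
    · intro p _ _
      simp only [hs, hb, gus, ghs]
      have h1 := gu_nn E j p
      have h2 := ghn_nn E V j i p
      have h3 := ghn_le E V j i p
      split_ifs <;> linarith
    · intro p
      have h1 := aV_nn V p
      have h2 := gu_nn E j p
      have h3 := ghn_nn E V j i p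
      linarith
  have h2 : ∀ m : ℕ, m ≠ 0 → LP (fun p => s p + b p) m ≤ E.AA V j m := by
    intro m hm
    unfold KEnv.AA
    apply LP_le _ _ _ hm
    · intro p _ _
      simp only [hs, hb, gus, ghs]
      have h1 := gu_nn E j p
      have h2 := gh_nn E V j p
      have h3 := ghn_le E V j i p
      split_ifs <;> linarith
    · intro p
      exact add_nonneg (hs0 p) (hb0 p)
  have h3 := hSPL s b hs0 hb0 n hn
  have h4 : ∑ p ∈ n.primeFactors, (n.factorization p : ℝ) * (b p * LP (fun p => s p + b p) (n / p)) ≤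
      2 * (∑ p ∈ n.primeFactors.filter (fun p : ℕ => (2 : ℝ) ^ (3 / 5 * (i : ℝ)) < p), E.gu j p * E.AA V j (n / p) +
      ∑ q ∈ n.primeFactors.filter (fun q : ℕ => (2 : ℝ) ^ ((i : ℝ) / 10 ^ 6) ≤ q),
        (n.factorization q : ℝ) * (E.ghn V j i q * E.AA V j (n / q))) := by
    rw [sum_filter, sum_filter, ← sum_add_distrib, mul_sum]
    apply sum_le_sum
    intro p hp
    have hpp := Nat.prime_of_mem_primeFactors hp
    have hpn := Nat.dvd_of_mem_primeFactors hp
    have hnp : n / p ≠ 0 := by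
      have := Nat.div_pos (Nat.le_of_dvd (Nat.pos_of_ne_zero hn) hpn) hpp.pos
      omega
    have hAA := h2 (n / p) hnp
    have hLP0 : 0 ≤ LP (fun p => s p + b p) (n / p) :=
      LP_nonneg _ (fun p => add_nonneg (hs0 p) (hb0 p)) _
    have hAA0 : 0 ≤ E.AA V j (n / p) := hLP0.trans hAA
    have hf0 : (0 : ℝ) ≤ n.factorization p := Nat.cast_nonneg _
    calc (n.factorization p : ℝ) * (b p * LP (fun p => s p + b p) (n / p))
        ≤ (n.factorization p : ℝ) * (b p * E.AA V j (n / p)) := by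
          apply mul_le_mul_of_nonneg_left _ hf0
          exact mul_le_mul_of_nonneg_left hAA (hb0 p)
      _ = 2 * ((if (2 : ℝ) ^ (3 / 5 * (i : ℝ)) < p then (n.factorization p : ℝ) * (E.gu j p * E.AA V j (n / p)) else 0) +
          (if (2 : ℝ) ^ ((i : ℝ) / 10 ^ 6) ≤ p then (n.factorization p : ℝ) * (E.ghn V j i p * E.AA V j (n / p)) else 0)) := by
          simp only [hb]
          split_ifs <;> ring
      _ = _ := by
          congr 2
          split_ifs with hc
          · rw [fac_one hi hn hle hpp hpn hc]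
            simp
          · rfl
  have h5 : 0 ≤ LP (aV V) n := LP_nonneg _ (aV_nn V) n
  have h6 : 0 ≤ LP s n := LP_nonneg _ hs0 n
  linarith

/-- **job NK** -/
theorem t_NK (hSPL : S_SPL) (hUP : S_UP) (hHP : S_HP) (hSP : S_SP) : S_NK := by
  intro E
  have hal := al_pos E
  have hal' := al_le E
  set ε : ℝ := E.al / 1000 with hε
  have hε0 : 0 < ε := by positivity
  obtain ⟨η1, J1, hη1, h1⟩ := hUP E ε hε0
  obtain ⟨η2, J2, hη2, h2⟩ := hHP E ε hε0
  obtain ⟨η3, J3, hη3, h3⟩ := hSP E ε hε0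
  refine ⟨min η1 (min η2 η3), max (max J1 J2) (max J3 6), lt_min hη1 (lt_min hη2 hη3), ?_⟩
  intro η j V hη hηle hj hev i k hij hk
  have e1 := h1 η j V hη (hηle.trans (min_le_left _ _)) ((le_max_left _ _).trans ((le_max_left _ _).trans hj)) hev i k hij hk
  have e2 := h2 η j V hη (hηle.trans ((min_le_right _ _).trans (min_le_left _ _))) ((le_max_right _ _).trans ((le_max_left _ _).trans hj)) hev i k hij hk
  have e3 := h3 η j V hη (hηle.trans ((min_le_right _ _).trans (min_le_right _ _))) ((le_max_left _ _).trans ((le_max_right _ _).trans hj)) hev i k hij hk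
  have hj6 : 6 ≤ j := (le_max_right _ _).trans ((le_max_right _ _).trans hj)
  have hi6 : 6 ≤ i := hj6.trans hij
  have hww := ww_pos E.δ (show 1 ≤ i by omega)
  have hcell : ∀ n ∈ cell E.δ i k, n ≠ 0 ∧ n ≤ 2 ^ (i + 1) := by
    intro n hn
    have := cell_loc E.δ E.hδ i k n hk hn
    constructor
    · have h0 : 0 < 2 ^ i := by positivity
      omega
    · omega
  have hWC : E.WC i k = if k ∈ E.B1 i ∪ E.B2 i then E.al * ww E.δ i else ww E.δ i := rfl
  have halww : 0 < E.al * ww E.δ i := mul_pos hal hww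
  have halww' : E.al * ww E.δ i ≤ 1 / 64 * ww E.δ i := mul_le_mul_of_nonneg_right hal' hww.le
  have hεww : ε * ww E.δ i = E.al * ww E.δ i / 1000 := by rw [hε]; ring
  constructor
  · have hsum : ∑ n ∈ cell E.δ i k, (E.AN V j i n - LP (aV V) n) / 2 ≤
        ∑ n ∈ cell E.δ i k, (LP (fun p => aV V p + 2 * (gus E j i p + ghs E V j i p)) n +
      ∑ p ∈ n.primeFactors.filter (fun p : ℕ => (2 : ℝ) ^ (3 / 5 * (i : ℝ)) < p), E.gu j p * E.AA V j (n / p) +
      ∑ q ∈ n.primeFactors.filter (fun q : ℕ => (2 : ℝ) ^ ((i : ℝ) / 10 ^ 6) ≤ q),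
        (n.factorization q : ℝ) * (E.ghn V j i q * E.AA V j (n / q))) :=
      sum_le_sum fun n hn => NK_point hSPL E V j i hi6 (hcell n hn).1 (hcell n hn).2
    rw [sum_add_distrib, sum_add_distrib] at hsum
    rw [hWC]
    split_ifs at e1 e2 ⊢ <;> linarith
  · have hsum : ∑ n ∈ cell E.δ i k, LP (aV V) n ≤
        ∑ n ∈ cell E.δ i k, LP (fun p => aV V p + 2 * (gus E j i p + ghs E V j i p)) n := by
      apply sum_le_sum
      intro n hn
      apply LP_le _ _ (aV_nn V) (hcell n hn).1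
      intro p _ _
      unfold gus ghs
      have h1 := gu_nn E j p
      have h2 := gh_nn E V j p
      split_ifs <;> linarith
    rw [hWC]
    split_ifs <;> linarith

end Pool.Agent.Q102.KZ
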